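import Pool.Agent.R312I.Cube

/-!
# MP_f59665_co : no quadratic (and no `x^a`, `a < 7/3`) bound of `n⁺` in terms of `n⁻`
-/

namespace Pool.Agent.Results.MP_f59665_co.ExponentSevenThirds

open Finset Polynomial

variable {V : Type} [Fintype V] [DecidableEq V]

/-- The real adjacency matrix of a graph is symmetric. -/
theorem herm (G : SimpleGraph V) [DecidableRel G.Adj] : (G.adjMatrix ℝ).IsHermitian :=
  Pool.Agent.R312I.herm G

/-- `n⁺(G)`: the number of positive eigenvalues of the adjacency matrix, with multiplicity. -/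
noncomputable def nPlus (G : SimpleGraph V) [DecidableRel G.Adj] : ℕ :=
  (univ.filter fun i => 0 < (herm G).eigenvalues i).card

/-- `n⁻(G)`: the number of negative eigenvalues of the adjacency matrix, with multiplicity. -/
noncomputable def nMinus (G : SimpleGraph V) [DecidableRel G.Adj] : ℕ :=
  (univ.filter fun i => (herm G).eigenvalues i < 0).card

lemma growth (K b : ℝ) (hb : b < 7) :
    ∃ m : ℕ, 1 ≤ m ∧ K * (m : ℝ) ^ b + 34 * (m : ℝ) ^ 3 < (m : ℝ) ^ 7 := by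
  have h1 : Filter.Tendsto (fun m : ℕ => (m : ℝ) ^ (7 - b)) Filter.atTop Filter.atTop :=
    (tendsto_rpow_atTop (by linarith)).comp tendsto_natCast_atTop_atTop
  obtain ⟨m, hm1, hm2⟩ := ((h1.eventually_gt_atTop (2 * |K|)).and
    (Filter.eventually_ge_atTop 3)).exists
  refine ⟨m, by omega, ?_⟩
  have hm3 : (3 : ℝ) ≤ m := by exact_mod_cast hm2
  have hmpos : (0 : ℝ) < m := by linarith
  have hsplit : (m : ℝ) ^ (7 : ℕ) = (m : ℝ) ^ (7 - b) * (m : ℝ) ^ b := by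
    rw [← Real.rpow_add hmpos, ← Real.rpow_natCast]
    congr 1
    push_cast
    ring
  have hbpos : 0 < (m : ℝ) ^ b := Real.rpow_pos_of_pos hmpos b
  have h2 : 2 * (K * (m : ℝ) ^ b) < (m : ℝ) ^ (7 : ℕ) := by
    rw [hsplit, ← mul_assoc]
    refine mul_lt_mul_of_pos_right ?_ hbpos
    calc 2 * K ≤ 2 * |K| := by linarith [le_abs_self K]
      _ < _ := hm1
  have h3 : 2 * (34 * (m : ℝ) ^ 3) < (m : ℝ) ^ (7 : ℕ) := by
    have h4 : (m : ℝ) ^ 7 = (m : ℝ) ^ 3 * (m : ℝ) ^ 4 := by ring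
    have h5 : (81 : ℝ) ≤ (m : ℝ) ^ 4 := by
      calc (81 : ℝ) = 3 ^ 4 := by norm_num
        _ ≤ (m : ℝ) ^ 4 := pow_le_pow_left₀ (by norm_num) hm3 4
    have h6 : 0 < (m : ℝ) ^ 3 := by positivity
    rw [h4]
    nlinarith
  linarith

/-- **Result.** (1) For every `m ≥ 1` there is a graph on `m ^ 7` vertices with
`n⁻ ≤ 34 m ^ 3` and `n⁺ ≥ m ^ 7 - 34 m ^ 3`.  (2) For all reals `C` and `a < 7 / 3` there is a graph
with `n⁺ > C (n⁻) ^ a`.  (3) For every real polynomial `f` of degree at most two there is a graph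
with `n⁺ > f (n⁻)`.  (4) In particular `2 n⁺ ≤ n⁻ (n⁻ + 1)` fails for some graph. -/
theorem result :
    (∀ m : ℕ, 1 ≤ m → ∃ (G : SimpleGraph (Fin 7 → Fin m)) (_ : DecidableRel G.Adj),
      nMinus G ≤ 34 * m ^ 3 ∧ m ^ 7 ≤ nPlus G + 34 * m ^ 3) ∧
    (∀ C a : ℝ, a < 7 / 3 → ∃ (V : Type) (_ : Fintype V) (_ : DecidableEq V) (G : SimpleGraph V)
      (_ : DecidableRel G.Adj), C * (nMinus G : ℝ) ^ a < nPlus G) ∧
    (∀ f : ℝ[X], f.natDegree ≤ 2 → ∃ (V : Type) (_ : Fintype V) (_ : DecidableEq V)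
      (G : SimpleGraph V) (_ : DecidableRel G.Adj), f.eval (nMinus G : ℝ) < nPlus G) ∧
    (∃ (V : Type) (_ : Fintype V) (_ : DecidableEq V) (G : SimpleGraph V) (_ : DecidableRel G.Adj),
      nMinus G * (nMinus G + 1) < 2 * nPlus G) := by
  have key : ∀ m : ℕ, 1 ≤ m → ∃ (G : SimpleGraph (Fin 7 → Fin m)) (_ : DecidableRel G.Adj),
      nMinus G ≤ 34 * m ^ 3 ∧ m ^ 7 ≤ nPlus G + 34 * m ^ 3 := fun m hm =>
    ⟨Pool.Agent.R312I.gr m, inferInstance, Pool.Agent.R312I.cube_bounds hm⟩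
  have hpoly : ∀ f : ℝ[X], f.natDegree ≤ 2 → ∃ (V : Type) (_ : Fintype V) (_ : DecidableEq V)
      (G : SimpleGraph V) (_ : DecidableRel G.Adj), f.eval (nMinus G : ℝ) < nPlus G := by
    intro f hf
    set K : ℝ := |f.coeff 0| + |f.coeff 1| + |f.coeff 2| with hK
    obtain ⟨m, hm, hlt⟩ := growth (K * 34 ^ 2) 6 (by norm_num)
    obtain ⟨G, hG, h1, h2⟩ := key m hm
    refine ⟨Fin 7 → Fin m, inferInstance, inferInstance, G, hG, ?_⟩
    have hmR : (1 : ℝ) ≤ m := by exact_mod_cast hm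
    have hx : (nMinus G : ℝ) ≤ 34 * (m : ℝ) ^ 3 := by exact_mod_cast h1
    have hy : (m : ℝ) ^ 7 ≤ (nPlus G : ℝ) + 34 * (m : ℝ) ^ 3 := by exact_mod_cast h2
    have hx0 : (0 : ℝ) ≤ nMinus G := Nat.cast_nonneg _
    set x : ℝ := (nMinus G : ℝ)
    set y : ℝ := 34 * (m : ℝ) ^ 3 with hy'
    have hm3 : (1 : ℝ) ≤ (m : ℝ) ^ 3 := one_le_pow₀ hmR
    have hy1 : 1 ≤ y := by rw [hy']; linarith
    have hev : f.eval x = f.coeff 0 + f.coeff 1 * x + f.coeff 2 * x ^ 2 := by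
      rw [Polynomial.eval_eq_sum_range' (show f.natDegree < 3 by omega)]
      simp [sum_range_succ]
    have hxy2 : x ^ 2 ≤ y ^ 2 := pow_le_pow_left₀ hx0 hx 2
    have hyy : y ≤ y ^ 2 := by nlinarith
    have hone : (1 : ℝ) ≤ y ^ 2 := le_trans hy1 hyy
    have e0 : f.coeff 0 ≤ |f.coeff 0| * y ^ 2 := by
      calc f.coeff 0 ≤ |f.coeff 0| := le_abs_self _
        _ = |f.coeff 0| * 1 := by ring
        _ ≤ _ := mul_le_mul_of_nonneg_left hone (abs_nonneg _)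
    have e1 : f.coeff 1 * x ≤ |f.coeff 1| * y ^ 2 := by
      calc f.coeff 1 * x ≤ |f.coeff 1| * x := mul_le_mul_of_nonneg_right (le_abs_self _) hx0
        _ ≤ _ := mul_le_mul_of_nonneg_left (by linarith) (abs_nonneg _)
    have e2 : f.coeff 2 * x ^ 2 ≤ |f.coeff 2| * y ^ 2 := by
      calc f.coeff 2 * x ^ 2 ≤ |f.coeff 2| * x ^ 2 :=
            mul_le_mul_of_nonneg_right (le_abs_self _) (by positivity)
        _ ≤ _ := mul_le_mul_of_nonneg_left hxy2 (abs_nonneg _)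
    have e3 : f.eval x ≤ K * y ^ 2 := by
      rw [hev, hK]; linarith
    have e4 : K * y ^ 2 = K * 34 ^ 2 * (m : ℝ) ^ (6 : ℝ) := by
      rw [hy', show (6 : ℝ) = ((6 : ℕ) : ℝ) by norm_num, Real.rpow_natCast]
      ring
    have e5 : f.eval x ≤ K * 34 ^ 2 * (m : ℝ) ^ (6 : ℝ) := e3.trans_eq e4
    exact lt_of_add_lt_add_right ((add_le_add_left e5 y).trans_lt (hlt.trans_le hy))
  refine ⟨key, ?_, hpoly, ?_⟩
  · intro C a ha
    set b : ℝ := max a 0 with hb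
    have hb0 : 0 ≤ b := le_max_right _ _
    have hb7 : b < 7 / 3 := max_lt ha (by norm_num)
    obtain ⟨m, hm, hlt⟩ := growth (|C| * 34 ^ b) (3 * b) (by linarith)
    obtain ⟨G, hG, h1, h2⟩ := key m hm
    refine ⟨Fin 7 → Fin m, inferInstance, inferInstance, G, hG, ?_⟩
    have hmR : (1 : ℝ) ≤ m := by exact_mod_cast hm
    have hx : (nMinus G : ℝ) ≤ 34 * (m : ℝ) ^ 3 := by exact_mod_cast h1
    have hy : (m : ℝ) ^ 7 ≤ (nPlus G : ℝ) + 34 * (m : ℝ) ^ 3 := by exact_mod_cast h2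
    have hm3 : (1 : ℝ) ≤ (m : ℝ) ^ 3 := one_le_pow₀ hmR
    have hy1 : (1 : ℝ) ≤ 34 * (m : ℝ) ^ 3 := by linarith
    have hpow : (nMinus G : ℝ) ^ a ≤ (34 * (m : ℝ) ^ 3) ^ b := by
      rcases Nat.eq_zero_or_pos (nMinus G) with h0 | h0
      · rw [h0, Nat.cast_zero]
        have h1 : (1 : ℝ) ≤ (34 * (m : ℝ) ^ 3) ^ b := Real.one_le_rpow hy1 hb0
        by_cases ha0 : a = 0
        · rw [ha0, Real.rpow_zero]; exact h1
        · rw [Real.zero_rpow ha0]; linarith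
      · have hx1 : (1 : ℝ) ≤ nMinus G := by exact_mod_cast h0
        calc (nMinus G : ℝ) ^ a ≤ (nMinus G : ℝ) ^ b :=
              Real.rpow_le_rpow_of_exponent_le hx1 (le_max_left _ _)
          _ ≤ _ := Real.rpow_le_rpow (by linarith) hx hb0
    have hnn : (0 : ℝ) ≤ (nMinus G : ℝ) ^ a := Real.rpow_nonneg (Nat.cast_nonneg _) _
    have e1 : C * (nMinus G : ℝ) ^ a ≤ |C| * (34 * (m : ℝ) ^ 3) ^ b :=
      (mul_le_mul_of_nonneg_right (le_abs_self C) hnn).trans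
        (mul_le_mul_of_nonneg_left hpow (abs_nonneg C))
    have e2 : (34 * (m : ℝ) ^ 3) ^ b = 34 ^ b * (m : ℝ) ^ (3 * b) := by
      rw [Real.mul_rpow (by norm_num) (by positivity), Real.rpow_mul (by positivity)]
      congr 2
      rw [show (3 : ℝ) = ((3 : ℕ) : ℝ) by norm_num, Real.rpow_natCast]
    rw [e2, ← mul_assoc] at e1
    linarith
  · obtain ⟨V, i1, i2, G, i3, h⟩ := hpoly (C (1 / 2) * X ^ 2 + C (1 / 2) * X) (by
      compute_degree)
    refine ⟨V, i1, i2, G, i3, ?_⟩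
    simp only [eval_add, eval_mul, eval_C, eval_pow, eval_X] at h
    have : ((nMinus G * (nMinus G + 1) : ℕ) : ℝ) < ((2 * nPlus G : ℕ) : ℝ) := by
      push_cast
      nlinarith
    exact_mod_cast this

end Pool.Agent.Results.MP_f59665_co.ExponentSevenThirds
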