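import Pool.Agent.R360.NP.Final

/-!
# Positive versus negative inertia: the growth exponent is at least `1 + √2`

`npos G`, `nneg G` (in `Pool/Agent/R360/NP/Inertia.lean`) are the numbers of positive and of
negative roots, with multiplicity, of the characteristic polynomial of the adjacency matrix of `G`.
-/

set_option autoImplicit false

open Pool.Agent.R360.NP (npos nneg)

namespace Pool.Agent.Results.MP_f59665_co.GrowthExponent

/-- For every exponent `e < 1 + √2` and every constant `C` there is a graph `G` with `n⁻(G) > 0`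
and `n⁺(G) > C * n⁻(G) ^ e`. In particular no polynomial of degree at most `2` bounds `n⁺` in terms
of `n⁻`, and `2 n⁺ ≤ n⁻ (n⁻ + 1)` fails for infinitely many graphs. -/
theorem result (e : ℝ) (he : e < 1 + Real.sqrt 2) (C : ℝ) :
    ∃ (n : ℕ) (G : SimpleGraph (Fin n)), 0 < nneg G ∧ C * (nneg G : ℝ) ^ e < npos G := by
  obtain ⟨n, G, hG⟩ := Pool.Agent.R360.NP.exponent e he |C|
  refine ⟨n, G, ?_, ?_⟩
  · rcases Nat.eq_zero_or_pos (nneg G) with h0 | h0
    · exfalso
      rw [Pool.Agent.R360.NP.npos_zero G h0] at hG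
      have h1 : 0 ≤ |C| * (nneg G : ℝ) ^ e :=
        mul_nonneg (abs_nonneg C) (Real.rpow_nonneg (Nat.cast_nonneg _) _)
      rw [Nat.cast_zero] at hG
      linarith
    · exact h0
  · refine lt_of_le_of_lt ?_ hG
    exact mul_le_mul_of_nonneg_right (le_abs_self C) (Real.rpow_nonneg (Nat.cast_nonneg _) _)

end Pool.Agent.Results.MP_f59665_co.GrowthExponent
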