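import Pool.Agent.R881.InertC

set_option autoImplicit false

open Polynomial

namespace Pool.Agent.Results.MP_f59665_co.NoQuadraticBound

open Pool.Agent.R881.Inert

/-- Finite simple graphs whose positive inertia exceeds every quadratic function of the negative
inertia. -/
theorem result :
    (∀ m : ℕ, ∃ (V : Type) (_ : Fintype V) (_ : DecidableEq V) (G : SimpleGraph V)
      (_ : DecidableRel G.Adj), Fintype.card V = m ^ 7 ∧ nMinus G ≤ 34 * m ^ 3 ∧
        m ^ 7 ≤ nPlus G + 34 * m ^ 3) ∧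
    (∀ c C : ℝ, 0 ≤ c → c < 7 / 3 → ∃ (V : Type) (_ : Fintype V) (_ : DecidableEq V)
      (G : SimpleGraph V) (_ : DecidableRel G.Adj), C * (nMinus G : ℝ) ^ c < nPlus G) ∧
    (∀ f : ℝ[X], f.natDegree ≤ 2 → ∃ (V : Type) (_ : Fintype V) (_ : DecidableEq V)
      (G : SimpleGraph V) (_ : DecidableRel G.Adj), f.eval (nMinus G : ℝ) < nPlus G) ∧
    (∃ (V : Type) (_ : Fintype V) (_ : DecidableEq V) (G : SimpleGraph V)
      (_ : DecidableRel G.Adj), nMinus G * (nMinus G + 1) < 2 * nPlus G) := by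
  refine ⟨fun m => ⟨Fin 7 → Fin m, inferInstance, inferInstance, G m, inferInstance, ?_,
    (bounds m).1, (bounds m).2⟩, fun c C h0 hc => ?_, fun f hf => ?_, ?_⟩
  · simp
  · obtain ⟨m, hm⟩ := power h0 hc C
    exact ⟨_, inferInstance, inferInstance, G m, inferInstance, hm⟩
  · obtain ⟨m, hm⟩ := quad f hf
    exact ⟨_, inferInstance, inferInstance, G m, inferInstance, hm⟩
  · obtain ⟨m, hm⟩ := quad (C (1 / 2) * X ^ 2 + C (1 / 2) * X) (by compute_degree)
    refine ⟨_, inferInstance, inferInstance, G m, inferInstance, ?_⟩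
    simp only [eval_add, eval_mul, eval_C, eval_pow, eval_X] at hm
    have : ((nMinus (G m) * (nMinus (G m) + 1) : ℕ) : ℝ) < ((2 * nPlus (G m) : ℕ) : ℝ) := by
      push_cast
      linarith
    exact_mod_cast this

end Pool.Agent.Results.MP_f59665_co.NoQuadraticBound
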